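import Pool.Agent.R412.ABG.StmProof

/-!
# The homology of the Allison–Benkart–Gao Lie algebra of a free alternative algebra contains
trivial or adjoint components

The ground field `k` has characteristic zero and `V = k ^ 3`.

* `IsFreeAlt k A x`: `A` is the free (non-unital) alternative algebra `Alt(V)` on the basis `x` of
  `V`.
* `IsABG t w`: the Lie algebra `L`, with its action of `sl₃`, is `ABG(A) = sl₃ ⊗ A ⊕ B(A)`, where
  `t X p = X ⊗ p` and `w p q = p ∧ q`. As a vector space, `L` is given by its universal property.
* `bd k L` is the Chevalley–Eilenberg boundary on the exterior algebra of `L`; `cyc k L j` and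
  `bdry k L j` are the cycles and the boundaries of degree `j`, so `H_j(L, k) = cyc k L j / bdry k L j`.
* `HasSummand k L V a j`: the `sl₃`-module `H_j(L, k)` has a direct summand isomorphic to `V`, where
  `X ∈ sl₃` acts on `V` by `a X`.

The proof: if there were no trivial and no adjoint components in degrees `j ≥ 2`, the Euler
characteristic of the Chevalley–Eilenberg complex would determine the dimension of the component of
degree `10` of `Alt(V)`; it would be `56961`, but the component is mapped onto the component of
degree `10` of the free associative algebra, which has the dimension `3 ^ 10 = 59049`.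
-/

set_option autoImplicit false

noncomputable section

namespace Pool.Agent.Results.MP_894cc0_al.TrivialOrAdjointComponent

open Pool.Agent.R412.ABG

/-- For every field `k` of characteristic zero and `V = k ^ 3` there is `j ≥ 2` such that the
`sl₃`-module `H_j(ABG(Alt(V)), k)` has a direct summand isomorphic to the trivial module `k` or to the
adjoint module `sl₃`. -/
theorem result (k : Type) [Field k] [CharZero k] :
    ∃ (A : Type) (_ : NonUnitalNonAssocRing A) (_ : Module k A) (x : Fin 3 → A)
      (L : Type) (_ : LieRing L) (_ : LieAlgebra k L) (_ : LieRingModule (sl3' k) L)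
      (_ : LieModule k (sl3' k) L) (t : sl3' k → A → L) (w : A → A → L),
      IsFreeAlt k A x ∧ IsABG t w ∧ ∃ j : ℕ, 2 ≤ j ∧
        (HasSummand k L k (fun _ _ => 0) j ∨ HasSummand k L (sl3' k) (fun X v => ⁅X, v⁆) j) := by
  obtain ⟨j, hj, h⟩ := main k
  refine ⟨FAlt k 3, inferInstance, inferInstance, _, ABG k (FAlt k 3), inferInstance,
    inferInstance, inferInstance, inferInstance, _, _, isFreeAlt_FAlt, isABG_ABG, j, hj, ?_⟩
  rcases h with h | h
  · exact Or.inl ((hasSummand_of h).congr (trE' k) (fun X v => map_zero _))
  · exact Or.inr (hasSummand_of h)

end Pool.Agent.Results.MP_894cc0_al.TrivialOrAdjointComponent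

end
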